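import Pool.Agent.K1H9.DV.Core
import Pool.Agent.Helper111.EN.Resid
import Pool.Agent.H798R2.EP.H

set_option autoImplicit false

/-!
# Torsion-free nilpotent normal subgroups of finite index
-/

namespace Pool.Agent.K1H9.DV

open Function Subgroup

variable {G : Type} [Group G]

/-- torsion-free, as a property of a subgroup -/
def TF (M : Subgroup G) : Prop := ∀ x ∈ M, ∀ n : ℕ, 0 < n → x ^ n = 1 → x = 1

theorem rp_of [Group.FG G] (M : Subgroup G) (hM : M.Normal) (hf : M.FiniteIndex)
    (hn : Group.IsNilpotent M) (ht : TF M) : RP M := by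
  intro p hp x hx hx1
  have hfg : Group.FG M := Subgroup.fg_of_index_ne_zero M
  obtain ⟨r, hr, hrπ, N, hN, hxN, hfin, hpg⟩ := Helper111.EN.resid (K := M)
    {r : ℕ | r.Prime ∧ r ≠ p} (fun r hr => hr.1) p hp (fun h => h.2 rfl)
    (fun r hr y hy => Subtype.ext (ht y y.2 r hr.1.pos (by
      have := congrArg Subtype.val hy
      simpa using this))) ⟨x, hx⟩ (fun h => hx1 (congrArg Subtype.val h))
  have hrp : r = p := by
    by_contra hc
    exact hrπ ⟨hr, hc⟩
  subst hrp
  have : Fact r.Prime := ⟨hr⟩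
  obtain ⟨k, hk⟩ := IsPGroup.iff_card.1 hpg
  have hex : ∀ y : M, y ^ (r ^ k) ∈ N := by
    intro y
    rw [← hk, ← QuotientGroup.eq_one_iff]
    show ((y : M) : M ⧸ N) ^ Nat.card (M ⧸ N) = 1
    exact pow_card_eq_one'
  have hNf : N.FiniteIndex := Subgroup.finiteIndex_of_finite_quotient
  have hNf' : (N.map M.subtype).FiniteIndex := by
    constructor
    rw [Subgroup.index_map_subtype]
    exact mul_ne_zero hNf.index_ne_zero hf.index_ne_zero
  refine ⟨k, (N.map M.subtype).normalCore, ⟨inferInstance, ?_, ?_⟩, inferInstance, ?_⟩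
  · refine (normalCore_le _).trans ?_
    rintro _ ⟨y, -, rfl⟩
    exact y.2
  · intro y hy g
    refine ⟨⟨g * y * g⁻¹, hM.conj_mem y hy g⟩ ^ (r ^ k), hex _, ?_⟩
    show (g * y * g⁻¹) ^ (r ^ k) = g * y ^ (r ^ k) * g⁻¹
    rw [conj_pow]
  · intro h
    obtain ⟨y, hy, hyx⟩ := normalCore_le _ h
    apply hxN
    have : y = ⟨x, hx⟩ := Subtype.ext hyx
    rwa [← this]

theorem exists_tf [Group.FG G] (h : Group.IsVirtuallyNilpotent G) :
    ∃ M : Subgroup G, M.Normal ∧ M.FiniteIndex ∧ Group.IsNilpotent M ∧ TF M := by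
  obtain ⟨H, hn, hi⟩ := h
  have hK : Group.IsNilpotent H.normalCore := by
    have h1 : Group.IsNilpotent (H.normalCore.subgroupOf H) := inferInstance
    exact (Group.isNilpotent_congr
      (Subgroup.subgroupOfEquivOfLe (Subgroup.normalCore_le H))).1 h1
  have hfi : (H.normalCore).FiniteIndex := inferInstance
  set A := H.normalCore with hA
  have hAfg : Group.FG A := Subgroup.fg_of_index_ne_zero _
  obtain ⟨T, hTf, hT⟩ := H798R2.EP.tor_finite A
  have : Finite T := hTf
  have hr : ∀ t : T, ∃ N : Subgroup A, N.FiniteIndex ∧ ((t : A) ≠ 1 → (t : A) ∉ N) := by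
    intro t
    by_cases ht : (t : A) = 1
    · exact ⟨⊤, inferInstance, fun h => absurd ht h⟩
    · obtain ⟨r, hr, hrπ, N, hN, hxN, hfin, hpg⟩ := Helper111.EN.resid (K := A)
        (∅ : Set ℕ) (fun p hp => absurd hp (Set.notMem_empty p)) 2 Nat.prime_two
        (Set.notMem_empty 2) (fun p hp => absurd hp (Set.notMem_empty p)) (t : A) ht
      exact ⟨N, Subgroup.finiteIndex_of_finite_quotient, fun _ => hxN⟩
  choose N hN1 hN2 using hr
  have hBf : (⨅ t, N t).FiniteIndex := Subgroup.finiteIndex_iInf hN1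
  set B := (⨅ t, N t) with hB
  have hBf' : (B.map A.subtype).FiniteIndex := by
    constructor
    rw [Subgroup.index_map_subtype]
    exact mul_ne_zero hBf.index_ne_zero hfi.index_ne_zero
  have hle : (B.map A.subtype).normalCore ≤ A := by
    refine (normalCore_le _).trans ?_
    rintro _ ⟨y, -, rfl⟩
    exact y.2
  refine ⟨(B.map A.subtype).normalCore, inferInstance, inferInstance, ?_, ?_⟩
  · have h1 : Group.IsNilpotent ((B.map A.subtype).normalCore.subgroupOf A) := inferInstance
    exact (Group.isNilpotent_congr (Subgroup.subgroupOfEquivOfLe hle)).1 h1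
  · intro x hx n hn hxn
    obtain ⟨y, hy, rfl⟩ := normalCore_le _ hx
    have h1 : y ∈ T := hT y ⟨n, hn, Subtype.ext hxn⟩
    by_contra hc
    have h2 : y ≠ 1 := by
      rintro rfl
      exact hc rfl
    apply hN2 ⟨y, h1⟩ h2
    have : y ∈ ⨅ t, N t := hy
    rw [mem_iInf] at this
    exact this _

end Pool.Agent.K1H9.DV
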