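import Pool.Agent.K1H9.DV.Step
import Pool.Agent.K1H9.DV.TF

set_option autoImplicit false

/-!
# Local confluence for finitely generated virtually nilpotent groups
-/

namespace Pool.Agent.K1H9.DV

open Function Subgroup

/-- every finite set of nontrivial elements of `H` survives in some epimorphism `H → G` -/
def Epi (G H : Type) [Group G] [Group H] : Prop :=
  ∀ S : Finset H, (1 : H) ∉ S → ∃ f : H →* G, Surjective f ∧ ∀ x ∈ S, f x ≠ 1

theorem Epi.refl (G : Type) [Group G] : Epi G G :=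
  fun _ hS => ⟨MonoidHom.id G, surjective_id, fun x hx h => hS (by
    have h' : x = 1 := h
    rwa [h'] at hx)⟩

theorem Epi.trans {G H K : Type} [Group G] [Group H] [Group K] (h1 : Epi G H) (h2 : Epi H K) :
    Epi G K := by
  classical
  intro S hS
  obtain ⟨f, hf, hfS⟩ := h2 S hS
  obtain ⟨g, hg, hgS⟩ := h1 (S.image f) (by
    intro h
    obtain ⟨x, hx, h⟩ := Finset.mem_image.1 h
    exact hfS x hx h)
  exact ⟨g.comp f, hg.comp hf, fun x hx => hgS _ (Finset.mem_image_of_mem _ hx)⟩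

section ovr

variable {G K Q X : Type} [Group G] [Group K] [Group Q]

/-- fully residually `K` over `Q` -/
def EpiO (q : K →* Q) (π : G →* Q) : Prop :=
  ∀ S : Finset G, (1 : G) ∉ S → ∃ f : G →* K, Surjective f ∧ q.comp f = π ∧ ∀ x ∈ S, f x ≠ 1

theorem finite_hom [hG : Group.FG G] [Finite Q] : Finite (G →* Q) := by
  obtain ⟨S, hS, hfin⟩ := Group.fg_iff.mp hG
  have : Finite S := hfin
  refine Finite.of_injective (fun (f : G →* Q) (s : S) => f s) ?_
  intro f g hfg
  apply MonoidHom.eq_of_eqOn_dense hS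
  intro x hx
  exact congrFun hfg ⟨x, hx⟩

theorem exists_over [Group.FG G] [Finite Q] (q : K →* Q) (h : Epi K G) :
    ∃ π : G →* Q, EpiO q π := by
  classical
  by_contra hc
  push Not at hc
  have h1 : ∀ π : G →* Q, ∃ S : Finset G, (1 : G) ∉ S ∧ ∀ f : G →* K, Surjective f →
      q.comp f = π → ∃ x ∈ S, f x = 1 := by
    intro π
    have := hc π
    unfold EpiO at this
    push Not at this
    exact this
  choose S hS1 hS2 using h1
  have : Finite (G →* Q) := finite_hom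
  have : Fintype (G →* Q) := Fintype.ofFinite _
  obtain ⟨f, hf, hfS⟩ := h (Finset.univ.biUnion S) (by
    intro h
    obtain ⟨π, -, h⟩ := Finset.mem_biUnion.1 h
    exact hS1 π h)
  obtain ⟨x, hx, hfx⟩ := hS2 (q.comp f) f hf rfl
  exact hfS x (Finset.mem_biUnion.2 ⟨_, Finset.mem_univ _, hx⟩) hfx

theorem EpiO.surj {q : K →* Q} {π : G →* Q} (h : EpiO q π) (hq : Surjective q) :
    Surjective π := by
  obtain ⟨f, hf, hfo, -⟩ := h ∅ (by simp)
  rw [← hfo]
  exact hq.comp hf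

theorem EpiO.tf {q : K →* Q} {π : G →* Q} (h : EpiO q π) (ht : TF q.ker) : TF π.ker := by
  intro x hx n hn hxn
  by_contra hc
  obtain ⟨f, hf, hfo, hfx⟩ := h {x} (by
    rw [Finset.mem_singleton]
    exact fun h => hc h.symm)
  apply hfx x (Finset.mem_singleton_self _)
  apply ht (f x) _ n hn (by rw [← map_pow, hxn, map_one])
  rw [MonoidHom.mem_ker, ← MonoidHom.comp_apply, hfo]
  exact hx

theorem EpiO.nil {q : K →* Q} {π : G →* Q} (h : EpiO q π) (hn : Group.IsNilpotent q.ker) :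
    Group.IsNilpotent π.ker := by
  rw [isNilpotent_iff_lowerCentralSeries] at hn ⊢
  obtain ⟨c, hc⟩ := hn
  refine ⟨c, ?_⟩
  rw [eq_bot_iff]
  intro x hx
  rw [mem_bot]
  by_contra hx1
  obtain ⟨f, hf, hfo, hfx⟩ := h {x} (by
    rw [Finset.mem_singleton]
    exact fun h => hx1 h.symm)
  apply hfx x (Finset.mem_singleton_self _)
  have h1 : π.ker.map f = q.ker := by
    ext y
    constructor
    · rintro ⟨z, hz, rfl⟩
      rw [MonoidHom.mem_ker, ← MonoidHom.comp_apply, hfo]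
      exact hz
    · intro hy
      obtain ⟨z, rfl⟩ := hf y
      refine ⟨z, ?_, rfl⟩
      show z ∈ π.ker
      rw [MonoidHom.mem_ker, ← hfo]
      exact hy
  have h2 : f x ∈ (π.ker.lowerCentralSeries c).map f := mem_map_of_mem f hx
  rw [map_lowerCentralSeries, h1, hc, mem_bot] at h2
  exact h2

/-- the words killed by all homomorphisms over `Q` -/
def NN (π : G →* Q) (θ : FreeGroup X →* Q) : Subgroup (FreeGroup X) :=
  ⨅ φ : {φ : FreeGroup X →* G // π.comp φ = θ}, φ.1.ker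

instance NN_normal (π : G →* Q) (θ : FreeGroup X →* Q) : (NN π θ).Normal :=
  normal_iInf_normal fun _ => inferInstance

theorem mem_NN {π : G →* Q} {θ : FreeGroup X →* Q} {w : FreeGroup X} :
    w ∈ NN π θ ↔ ∀ φ : FreeGroup X →* G, π.comp φ = θ → φ w = 1 := by
  rw [NN, mem_iInf]
  exact ⟨fun h φ hφ => h ⟨φ, hφ⟩, fun h φ => h φ.1 φ.2⟩

theorem NN_eq {q : K →* Q} {π : G →* Q} (h : EpiO q π) (θ : FreeGroup X →* Q) :
    NN π θ = NN q θ := by
  ext w
  rw [mem_NN, mem_NN]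
  constructor
  · intro hw φ hφ
    obtain ⟨f, hf, hfo, -⟩ := h ∅ (by simp)
    choose g hg using fun x : X => hf (φ (FreeGroup.of x))
    have h1 : f.comp (FreeGroup.lift g) = φ := by
      apply FreeGroup.ext_hom
      intro x
      rw [MonoidHom.comp_apply, FreeGroup.lift_apply_of, hg]
    have h2 : π.comp (FreeGroup.lift g) = θ := by
      rw [← hfo, MonoidHom.comp_assoc, h1, hφ]
    rw [← h1, MonoidHom.comp_apply, hw _ h2, map_one]
  · intro hw φ hφ
    by_contra hc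
    obtain ⟨f, hf, hfo, hfx⟩ := h {φ w} (by
      rw [Finset.mem_singleton]
      exact fun h => hc h.symm)
    apply hfx _ (Finset.mem_singleton_self _)
    rw [← MonoidHom.comp_apply]
    apply hw
    rw [← MonoidHom.comp_assoc, hfo, hφ]

end ovr

/-- one side of the upper bound -/
theorem side {G K Q X Y : Type} [Group G] [Group K] [Group Q] [Group.FG G] [Finite Q]
    (q : K →* Q) (hn : Group.IsNilpotent q.ker) (ht : TF q.ker)
    (π : G →* Q) (h : EpiO q π) (θ : FreeGroup (X ⊕ Y) →* Q)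
    (a : FreeGroup X →* G) (ha : Surjective a) (hπa : π.comp a = θ.comp (FreeGroup.map Sum.inl))
    (b : FreeGroup Y →* G) (hb : Surjective b) (hπb : π.comp b = θ.comp (FreeGroup.map Sum.inr)) :
    Epi G (FreeGroup (X ⊕ Y) ⧸ NN q θ) := by
  classical
  have hf : π.ker.FiniteIndex := by
    have : Finite π.range := inferInstance
    infer_instance
  have hRP : RP π.ker := rp_of π.ker inferInstance hf (h.nil hn) (h.tf ht)
  intro S hS
  choose r hr using fun x : FreeGroup (X ⊕ Y) ⧸ NN q θ =>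
    QuotientGroup.mk'_surjective (NN q θ) x
  obtain ⟨φ, hφ1, hφ2, hφ3⟩ := stepD π hRP hf θ a ha hπa b hb hπb (S.image r) (by
    intro w hw
    obtain ⟨x, hx, rfl⟩ := Finset.mem_image.1 hw
    by_contra hc
    push Not at hc
    have h1 : r x ∈ NN π θ := mem_NN.2 hc
    rw [NN_eq h] at h1
    apply hS
    have h2 : x = 1 := by
      rw [← hr x]
      exact (QuotientGroup.eq_one_iff _).2 h1
    rwa [h2] at hx)
  have hker : NN q θ ≤ φ.ker := by
    intro w hw
    rw [← NN_eq h] at hw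
    exact mem_NN.1 hw φ hφ1
  refine ⟨QuotientGroup.lift (NN q θ) φ hker, ?_, ?_⟩
  · intro g
    obtain ⟨w, rfl⟩ := hφ2 g
    exact ⟨(w : FreeGroup (X ⊕ Y) ⧸ NN q θ), rfl⟩
  · intro x hx h1
    apply hφ3 (r x) (Finset.mem_image_of_mem _ hx)
    rw [← hr x] at h1
    exact h1

theorem exists_gen (G : Type) [Group G] [hG : Group.FG G] :
    ∃ (n : ℕ) (a : FreeGroup (Fin n) →* G), Surjective a := by
  obtain ⟨α, hα, f, hf⟩ := Group.fg_iff_exists_freeGroup_hom_surjective_finite.1 hG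
  obtain ⟨n, ⟨e⟩⟩ := Finite.exists_equiv_fin α
  exact ⟨n, f.comp (FreeGroup.freeGroupCongr e).symm.toMonoidHom,
    hf.comp (FreeGroup.freeGroupCongr e).symm.surjective⟩

theorem confl (K G₁ G₂ : Type) [Group K] [Group G₁] [Group G₂] [Group.FG G₁] [Group.FG G₂]
    (hK : Group.IsVirtuallyNilpotent K) (h1 : Epi K G₁) (h2 : Epi K G₂) :
    ∃ (U : Type) (_ : Group U), Group.FG U ∧ Epi G₁ U ∧ Epi G₂ U := by
  have hfgK : Group.FG K := by
    obtain ⟨f, hf, -⟩ := h1 ∅ (by simp)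
    exact Group.fg_of_surjective hf
  obtain ⟨M, hM, hMf, hMn, hMt⟩ := exists_tf hK
  let q : K →* K ⧸ M := QuotientGroup.mk' M
  have hq : Surjective q := QuotientGroup.mk'_surjective M
  have hqk : q.ker = M := QuotientGroup.ker_mk' M
  have hfin : Finite (K ⧸ M) := inferInstance
  obtain ⟨π₁, hπ₁⟩ := exists_over q h1
  obtain ⟨π₂, hπ₂⟩ := exists_over q h2
  obtain ⟨n₁, a₁, ha₁⟩ := exists_gen G₁
  obtain ⟨n₂, a₂, ha₂⟩ := exists_gen G₂
  let X := Fin n₁ ⊕ Fin n₂
  let θ₀ : FreeGroup X →* K ⧸ M :=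
    FreeGroup.lift (Sum.elim (fun i => π₁ (a₁ (FreeGroup.of i))) (fun i => π₂ (a₂ (FreeGroup.of i))))
  let θ : FreeGroup (X ⊕ X) →* K ⧸ M :=
    FreeGroup.lift (Sum.elim (fun x => θ₀ (FreeGroup.of x)) (fun x => θ₀ (FreeGroup.of x)))
  have hθ1 : θ.comp (FreeGroup.map Sum.inl) = θ₀ := by
    apply FreeGroup.ext_hom
    intro x
    simp [θ]
  have hθ2 : θ.comp (FreeGroup.map Sum.inr) = θ₀ := by
    apply FreeGroup.ext_hom
    intro x
    simp [θ]
  have hgen1 : ∃ b : FreeGroup X →* G₁, Surjective b ∧ π₁.comp b = θ₀ := by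
    choose l hl using fun i => (hπ₁.surj hq) (π₂ (a₂ (FreeGroup.of i)))
    let b : FreeGroup X →* G₁ := FreeGroup.lift (Sum.elim (fun i => a₁ (FreeGroup.of i)) l)
    refine ⟨b, ?_, ?_⟩
    · intro g
      obtain ⟨u, rfl⟩ := ha₁ g
      refine ⟨FreeGroup.map Sum.inl u, ?_⟩
      have : b.comp (FreeGroup.map Sum.inl) = a₁ := by
        apply FreeGroup.ext_hom
        intro x
        simp [b]
      exact DFunLike.congr_fun this u
    · apply FreeGroup.ext_hom
      rintro (i | i)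
      · simp [b, θ₀]
      · simp [b, θ₀, hl]
  have hgen2 : ∃ b : FreeGroup X →* G₂, Surjective b ∧ π₂.comp b = θ₀ := by
    choose l hl using fun i => (hπ₂.surj hq) (π₁ (a₁ (FreeGroup.of i)))
    let b : FreeGroup X →* G₂ := FreeGroup.lift (Sum.elim l (fun i => a₂ (FreeGroup.of i)))
    refine ⟨b, ?_, ?_⟩
    · intro g
      obtain ⟨u, rfl⟩ := ha₂ g
      refine ⟨FreeGroup.map Sum.inr u, ?_⟩
      have : b.comp (FreeGroup.map Sum.inr) = a₂ := by
        apply FreeGroup.ext_hom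
        intro x
        simp [b]
      exact DFunLike.congr_fun this u
    · apply FreeGroup.ext_hom
      rintro (i | i)
      · simp [b, θ₀, hl]
      · simp [b, θ₀]
  obtain ⟨b₁, hb₁, hb₁'⟩ := hgen1
  obtain ⟨b₂, hb₂, hb₂'⟩ := hgen2
  refine ⟨FreeGroup (X ⊕ X) ⧸ NN q θ, inferInstance, QuotientGroup.fg _, ?_, ?_⟩
  · exact side q (by rw [hqk]; exact hMn) (by rw [hqk]; exact hMt) π₁ hπ₁ θ b₁ hb₁
      (hb₁'.trans hθ1.symm) b₁ hb₁ (hb₁'.trans hθ2.symm)
  · exact side q (by rw [hqk]; exact hMn) (by rw [hqk]; exact hMt) π₂ hπ₂ θ b₂ hb₂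
      (hb₂'.trans hθ1.symm) b₂ hb₂ (hb₂'.trans hθ2.symm)

end Pool.Agent.K1H9.DV
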