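import Mathlib

set_option autoImplicit false

/-!
# Generating tuples over a finite quotient avoiding finitely many relations
-/

namespace Pool.Agent.K1H9.DV

open Function Subgroup

section ex

variable {G : Type} [Group G]

/-- `D` is a normal subgroup of `G` inside `M`, containing all `n`-th powers of elements of `M`. -/
structure EX (n : ℕ) (M D : Subgroup G) : Prop where
  nor : D.Normal
  le : D ≤ M
  ex : ∀ x ∈ M, x ^ n ∈ D

theorem EX.inf {n m : ℕ} {M D E : Subgroup G} (h1 : EX n M D) (h2 : EX m M E) :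
    EX (n * m) M (D ⊓ E) where
  nor := by
    have := h1.nor
    have := h2.nor
    infer_instance
  le := inf_le_left.trans h1.le
  ex := by
    intro x hx
    refine ⟨?_, ?_⟩
    · rw [pow_mul]
      exact D.pow_mem (h1.ex x hx) m
    · rw [mul_comm, pow_mul]
      exact E.pow_mem (h2.ex x hx) n

theorem EX.crt {n m : ℕ} {M D E : Subgroup G} (h1 : EX n M D) (h2 : EX m M E)
    (hc : n.Coprime m) (x : G) (hx : x ∈ M) : ∃ d ∈ D, ∃ e ∈ E, x = d * e := by
  have h := Nat.gcd_eq_gcd_ab n m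
  rw [hc.gcd_eq_one] at h
  refine ⟨(x ^ n) ^ (n.gcdA m), D.zpow_mem (h1.ex x hx) _, (x ^ m) ^ (n.gcdB m),
    E.zpow_mem (h2.ex x hx) _, ?_⟩
  rw [← zpow_natCast x n, ← zpow_natCast x m, ← zpow_mul, ← zpow_mul, ← zpow_add, ← h]
  simp

/-- residually finite-`p` for all `p`, by normal subgroups of the whole group. -/
def RP (M : Subgroup G) : Prop :=
  ∀ p : ℕ, p.Prime → ∀ x ∈ M, x ≠ 1 →
    ∃ (k : ℕ) (D : Subgroup G), EX (p ^ k) M D ∧ D.FiniteIndex ∧ x ∉ D

theorem RP.all {M : Subgroup G} (h : RP M) (hM : M.Normal) (hf : M.FiniteIndex)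
    {p : ℕ} (hp : p.Prime) (x : G) (hx : x ≠ 1) :
    ∃ (k : ℕ) (D : Subgroup G), EX (p ^ k) M D ∧ D.FiniteIndex ∧ x ∉ D := by
  by_cases hxM : x ∈ M
  · exact h p hp x hxM hx
  · exact ⟨0, M, ⟨hM, le_rfl, fun y hy => by simpa using hy⟩, hf, hxM⟩

theorem RP.fin {M : Subgroup G} (h : RP M) (hM : M.Normal) (hf : M.FiniteIndex)
    {p : ℕ} (hp : p.Prime) (S : Finset G) (hS : (1 : G) ∉ S) :
    ∃ (k : ℕ) (D : Subgroup G), EX (p ^ k) M D ∧ D.FiniteIndex ∧ ∀ x ∈ S, x ∉ D := by
  classical
  induction S using Finset.induction_on with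
  | empty => exact ⟨0, M, ⟨hM, le_rfl, fun y hy => by simpa using hy⟩, hf, by simp⟩
  | insert a S ha ih =>
    obtain ⟨k, D, h1, h2, h3⟩ := ih (fun h => hS (Finset.mem_insert_of_mem h))
    obtain ⟨l, E, g1, g2, g3⟩ := h.all hM hf hp a
      (fun h => hS (by rw [h]; exact Finset.mem_insert_self _ _))
    refine ⟨k + l, D ⊓ E, ?_, inferInstance, ?_⟩
    · rw [pow_add]; exact h1.inf g1
    · intro x hx hxD
      rcases Finset.mem_insert.1 hx with rfl | hx
      · exact g3 hxD.2
      · exact h3 x hx hxD.1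

end ex

section frattini

/-- maximal subgroups of a finite `p`-group contain the `p`-th powers and the commutators -/
theorem coatom_p {P : Type} [Group P] [Finite P] {p : ℕ} [hp : Fact p.Prime] (hP : IsPGroup p P)
    (C : Subgroup P) (hC : IsCoatom C) :
    (∀ x : P, x ^ p ∈ C) ∧ ∀ x y : P, x * y * x⁻¹ * y⁻¹ ∈ C := by
  have hnil : Group.IsNilpotent P := hP.isNilpotent
  have hn : C.Normal :=
    NormalizerCondition.normal_of_coatom C Group.normalizerCondition_of_isNilpotent hC
  let A := P ⧸ C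
  have hA : IsPGroup p A := hP.to_quotient C
  have hsub : ∀ B : Subgroup A, B = ⊥ ∨ B = ⊤ := by
    intro B
    have h1 : C ≤ B.comap (QuotientGroup.mk' C) := by
      intro x hx
      rw [mem_comap, show (QuotientGroup.mk' C) x = 1 from (QuotientGroup.eq_one_iff x).2 hx]
      exact B.one_mem
    rcases hC.le_iff.1 h1 with h | h
    · right
      rw [eq_top_iff]
      rintro y -
      obtain ⟨x, rfl⟩ := QuotientGroup.mk'_surjective C y
      have : x ∈ B.comap (QuotientGroup.mk' C) := by rw [h]; trivial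
      exact this
    · left
      rw [eq_bot_iff]
      intro y hy
      obtain ⟨x, rfl⟩ := QuotientGroup.mk'_surjective C y
      have : x ∈ B.comap (QuotientGroup.mk' C) := hy
      rw [h] at this
      rw [mem_bot]
      exact (QuotientGroup.eq_one_iff x).2 this
  have hnt : Nontrivial A := by
    by_contra hc
    rw [not_nontrivial_iff_subsingleton] at hc
    apply hC.1
    rw [eq_top_iff]
    intro x _
    exact (QuotientGroup.eq_one_iff x).1 (Subsingleton.elim _ _)
  have hcen : center A = ⊤ := by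
    rcases hsub (center A) with h | h
    · have := hA.center_nontrivial
      rw [h] at this
      exact absurd this (not_nontrivial_iff_subsingleton.2 inferInstance)
    · exact h
  have hcomm : ∀ a b : A, a * b = b * a := by
    intro a b
    have : b ∈ center A := by rw [hcen]; trivial
    exact (mem_center_iff.1 this a)
  let B : Subgroup A :=
    { carrier := {a | a ^ p = 1}
      mul_mem' := by
        intro a b ha hb
        show (a * b) ^ p = 1
        rw [(show Commute a b from hcomm a b).mul_pow, ha, hb, one_mul]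
      one_mem' := one_pow _
      inv_mem' := by
        intro a ha
        show (a⁻¹) ^ p = 1
        rw [inv_pow, ha, inv_one] }
  have hB : B = ⊤ := by
    rcases hsub B with h | h
    · exfalso
      have h1 : p ∣ Nat.card A := by
        obtain ⟨n, hn⟩ := IsPGroup.iff_card.1 hA
        rcases n with _ | n
        · rw [pow_zero] at hn
          have := Finite.one_lt_card (α := A)
          omega
        · rw [hn]
          exact dvd_pow_self p (Nat.succ_ne_zero _)
      obtain ⟨a, ha⟩ := exists_prime_orderOf_dvd_card' (G := A) p h1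
      have h2 : a ∈ B := by
        show a ^ p = 1
        rw [← ha]
        exact pow_orderOf_eq_one a
      rw [h, mem_bot] at h2
      rw [h2, orderOf_one] at ha
      exact hp.out.one_lt.ne ha
    · exact h
  refine ⟨fun x => ?_, fun x y => ?_⟩
  · rw [← QuotientGroup.eq_one_iff]
    have : ((x : P) : A) ∈ B := by rw [hB]; trivial
    exact this
  · rw [← QuotientGroup.eq_one_iff]
    show (x : A) * (y : A) * (x : A)⁻¹ * (y : A)⁻¹ = 1
    rw [hcomm (x : A) (y : A)]
    group

variable {G : Type} [Group G]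

/-- the `p`-Frattini type subgroup -/
def D0 (p : ℕ) (M : Subgroup G) : Subgroup G :=
  closure {z | (∃ x ∈ M, z = x ^ p) ∨ ∃ x ∈ M, ∃ y ∈ M, z = x * y * x⁻¹ * y⁻¹}

theorem closure_nor {S : Set G} (h : ∀ z ∈ S, ∀ g : G, g * z * g⁻¹ ∈ S) :
    (closure S).Normal := by
  refine ⟨fun n hn g => ?_⟩
  have h1 : closure S ≤ (closure S).comap (MulAut.conj g).toMonoidHom := by
    rw [closure_le]
    intro z hz
    exact subset_closure (h z hz g)
  exact h1 hn

theorem D0_ex (p : ℕ) (M : Subgroup G) (hM : M.Normal) : EX p M (D0 p M) where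
  nor := by
    apply closure_nor
    rintro z (⟨x, hx, rfl⟩ | ⟨x, hx, y, hy, rfl⟩) g
    · left
      exact ⟨g * x * g⁻¹, hM.conj_mem x hx g, by rw [conj_pow]⟩
    · right
      exact ⟨g * x * g⁻¹, hM.conj_mem x hx g, g * y * g⁻¹, hM.conj_mem y hy g, by group⟩
  le := by
    rw [D0, closure_le]
    rintro z (⟨x, hx, rfl⟩ | ⟨x, hx, y, hy, rfl⟩)
    · exact M.pow_mem hx p
    · exact M.mul_mem (M.mul_mem (M.mul_mem hx hy) (M.inv_mem hx)) (M.inv_mem hy)
  ex := fun x hx => subset_closure (Or.inl ⟨x, hx, rfl⟩)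

theorem frat {p : ℕ} (hp : p.Prime) {k : ℕ} (M D L : Subgroup G) (hD : EX (p ^ k) M D)
    (hDf : D.FiniteIndex) (hL : L ≤ M) (h : ∀ x ∈ M, ∃ l ∈ L, ∃ d ∈ D0 p M, x = l * d) :
    ∀ x ∈ M, ∃ l ∈ L, ∃ d ∈ D, x = l * d := by
  have hDn := hD.nor
  have : Fact p.Prime := ⟨hp⟩
  let P := M ⧸ (D.subgroupOf M)
  let q : M →* P := QuotientGroup.mk' (D.subgroupOf M)
  have hq : ∀ x : M, q x = 1 ↔ (x : G) ∈ D := by
    intro x
    rw [← MonoidHom.mem_ker, QuotientGroup.ker_mk', mem_subgroupOf]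
  have hPf : Finite P := by
    have : (D.subgroupOf M).FiniteIndex := inferInstance
    infer_instance
  have hP : IsPGroup p P := by
    intro y
    obtain ⟨x, rfl⟩ := QuotientGroup.mk'_surjective (D.subgroupOf M) y
    refine ⟨k, ?_⟩
    rw [← map_pow]
    exact (hq _).2 (hD.ex x x.2)
  have hfr : ∀ d ∈ D0 p M, ∃ hd : d ∈ M, q ⟨d, hd⟩ ∈ frattini P := by
    have hle : D0 p M ≤ ((frattini P).comap q).map M.subtype := by
      rw [D0, closure_le]
      rintro z (⟨x, hx, rfl⟩ | ⟨x, hx, y, hy, rfl⟩)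
      · refine ⟨⟨x, hx⟩ ^ p, ?_, rfl⟩
        show q (⟨x, hx⟩ ^ p) ∈ frattini P
        rw [map_pow]
        rw [frattini, Order.radical, mem_iInf]
        intro C
        rw [mem_iInf]
        intro hC
        exact (coatom_p hP C hC).1 _
      · refine ⟨⟨x, hx⟩ * ⟨y, hy⟩ * ⟨x, hx⟩⁻¹ * ⟨y, hy⟩⁻¹, ?_, rfl⟩
        show q (⟨x, hx⟩ * ⟨y, hy⟩ * ⟨x, hx⟩⁻¹ * ⟨y, hy⟩⁻¹) ∈ frattini P
        rw [map_mul, map_mul, map_mul, map_inv, map_inv]
        rw [frattini, Order.radical, mem_iInf]
        intro C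
        rw [mem_iInf]
        intro hC
        exact (coatom_p hP C hC).2 _ _
    intro d hd
    obtain ⟨x, hx, rfl⟩ := hle hd
    exact ⟨x.2, hx⟩
  let L' : Subgroup P := (L.subgroupOf M).map q
  have hL' : L' = ⊤ := by
    apply frattini_nongenerating
    rw [eq_top_iff]
    rintro y -
    obtain ⟨x, rfl⟩ := QuotientGroup.mk'_surjective (D.subgroupOf M) y
    obtain ⟨l, hl, d, hd, hx⟩ := h x x.2
    obtain ⟨hdM, hdf⟩ := hfr d hd
    have : x = ⟨l, hL hl⟩ * ⟨d, hdM⟩ := Subtype.ext hx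
    rw [this, map_mul]
    refine mul_mem (mem_sup_left ?_) (mem_sup_right hdf)
    exact mem_map_of_mem q (show (⟨l, hL hl⟩ : M) ∈ L.subgroupOf M from hl)
  intro x hx
  have h1 : q ⟨x, hx⟩ ∈ L' := by rw [hL']; trivial
  obtain ⟨l, hl, hlx⟩ := h1
  refine ⟨l, hl, (l : G)⁻¹ * x, ?_, by group⟩
  have h2 : q (l⁻¹ * ⟨x, hx⟩) = 1 := by rw [map_mul, map_inv, hlx, inv_mul_cancel]
  exact (hq _).1 h2

end frattini

end Pool.Agent.K1H9.DV
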