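import Mathlib

set_option autoImplicit false

/-!
# The preorder of finitely generated groups given by limits of marked Cayley graphs
-/

namespace Pool.Agent.K1H9.DV

open Function Subgroup

section ball

variable {ι G H : Type} [Group G] [Group H]

/-- The element of `G` represented by a word in the letters `s i` and `(s i)⁻¹`. -/
def value (s : ι → G) (l : List (ι × Bool)) : G :=
  (l.map fun x => cond x.2 (s x.1) (s x.1)⁻¹).prod

/-- The vertex set of the ball of radius `R` about the identity in the Cayley graph of `G` with
respect to the generators `s i`. -/
def Ball (s : ι → G) (R : ℕ) : Set G :=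
  {g | ∃ l : List (ι × Bool), l.length ≤ R ∧ value s l = g}

/-- The balls of radius `R` about the identity in the two Cayley graphs are isomorphic as labelled
graphs: there is a bijection of the vertices, sending the identity to the identity, such that there
is an edge labelled `i` from `x` to `y` if and only if there is one between the images. -/
def BallIso (s : ι → G) (t : ι → H) (R : ℕ) : Prop :=
  ∃ f : Ball s R ≃ Ball t R, (∀ x : Ball s R, (x : G) = 1 → (f x : H) = 1) ∧
    ∀ (i : ι) (x y : Ball s R), (y : G) = x * s i ↔ (f y : H) = f x * t i

end ball

/-- `G ≼ H`: there are a finite generating set `T` of `H`, finite generating sets `S n` of `G` and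
bijections `S n ≃ T` such that for each `R` and all large `n` the balls of radius `R` of the
two labelled Cayley graphs are isomorphic. -/
def Prec (G H : Type) [Group G] [Group H] : Prop :=
  ∃ T : Set H, T.Finite ∧ closure T = ⊤ ∧
    ∃ (S : ℕ → Set G) (e : ∀ n, S n ≃ T), (∀ n, (S n).Finite ∧ closure (S n) = ⊤) ∧
      ∀ R : ℕ, ∃ N : ℕ, ∀ n, N ≤ n →
        BallIso (fun t : T => ((e n).symm t : G)) (fun t : T => (t : H)) R

/-- Finitely generated groups. -/
structure FGGroup where
  /-- the underlying type -/
  carrier : Type
  [grp : Group carrier]
  [fg : Group.FG carrier]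

attribute [instance] FGGroup.grp FGGroup.fg

/-- The relation `≼` between finitely generated groups. -/
def Le (G H : FGGroup) : Prop := Prec G.carrier H.carrier

/-- Isomorphism of finitely generated groups. -/
def isoSetoid : Setoid FGGroup where
  r G H := Nonempty (G.carrier ≃* H.carrier)
  iseqv := ⟨fun _ => ⟨MulEquiv.refl _⟩, fun ⟨e⟩ => ⟨e.symm⟩, fun ⟨e⟩ ⟨f⟩ => ⟨e.trans f⟩⟩

/-- Isomorphism classes of finitely generated groups. -/
def IsoClass : Type 1 := Quotient isoSetoid

/-- The isomorphism class of a finitely generated group. -/
def isoClass (G : FGGroup) : IsoClass := Quotient.mk isoSetoid G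

/-- The relation `≼` between isomorphism classes of finitely generated groups. -/
def LeC (a b : IsoClass) : Prop :=
  ∃ G H : FGGroup, isoClass G = a ∧ isoClass H = b ∧ Le G H

/-- The undirected graph whose vertices are the isomorphism classes of finitely generated groups,
two different classes being joined by an edge if one of them is `≼` the other. -/
def marked : SimpleGraph IsoClass := SimpleGraph.fromRel LeC

/-- Directed sets of isomorphism classes. -/
def DirectedSet (C : Set IsoClass) : Prop :=
  ∀ F : Set IsoClass, F.Finite → F ⊆ C → ∃ u ∈ C, ∀ a ∈ F, LeC a u

end Pool.Agent.K1H9.DV
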