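import Pool.Agent.K1H9.DV.Defs
import Pool.Agent.K1H9.DV.Conf
import Pool.Agent.W386.FinIdx

set_option autoImplicit false

/-!
# The relation in terms of epimorphisms
-/

namespace Pool.Agent.K1H9.DV

open Function Subgroup

section words

variable {ι G H : Type} [Group G] [Group H]

theorem value_nil (s : ι → G) : value s [] = 1 := rfl

theorem value_append (s : ι → G) (l m : List (ι × Bool)) :
    value s (l ++ m) = value s l * value s m := by
  simp [value]

theorem value_single (s : ι → G) (x : ι × Bool) :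
    value s [x] = cond x.2 (s x.1) (s x.1)⁻¹ := by
  simp [value]

theorem lift_eq_value [DecidableEq ι] (s : ι → G) (w : FreeGroup ι) : FreeGroup.lift s w = value s w.toWord := by
  conv_lhs => rw [← FreeGroup.mk_toWord (x := w)]
  rw [FreeGroup.lift_mk]
  rfl

theorem value_map (f : H →* G) (t : ι → H) (l : List (ι × Bool)) :
    value (fun i => f (t i)) l = f (value t l) := by
  induction l with
  | nil => rw [value_nil, value_nil, map_one]
  | cons x l ih =>
    rw [show x :: l = [x] ++ l from rfl, value_append, value_append, map_mul, ih, value_single,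
      value_single]
    congr 1
    cases x.2 <;> simp

theorem ball_mono (s : ι → G) {R R' : ℕ} (h : R ≤ R') : Ball s R ⊆ Ball s R' := by
  rintro g ⟨l, hl, rfl⟩
  exact ⟨l, hl.trans h, rfl⟩

theorem ball_mul (s : ι → G) {R R' : ℕ} {g g' : G} (h : g ∈ Ball s R) (h' : g' ∈ Ball s R') :
    g * g' ∈ Ball s (R + R') := by
  obtain ⟨l, hl, rfl⟩ := h
  obtain ⟨m, hm, rfl⟩ := h'
  exact ⟨l ++ m, by rw [List.length_append]; omega, value_append s l m⟩

theorem ball_gen (s : ι → G) (i : ι) : s i ∈ Ball s 1 :=
  ⟨[(i, true)], by simp, by rw [value_single]; rfl⟩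

theorem ball_inv (s : ι → G) {R : ℕ} {g : G} (h : g ∈ Ball s R) : g⁻¹ ∈ Ball s R := by
  obtain ⟨l, hl, rfl⟩ := h
  refine ⟨(l.map fun x => (x.1, !x.2)).reverse, by simpa using hl, ?_⟩
  induction l with
  | nil => simp [value]
  | cons x l ih =>
    have hl' : l.length ≤ R := by
      rw [List.length_cons] at hl
      omega
    rw [List.map_cons, List.reverse_cons, value_append, ih hl', value_single,
      show x :: l = [x] ++ l from rfl, value_append, value_single, mul_inv_rev]
    congr 1
    cases x.2 <;> simp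

theorem ball_finite [Finite ι] (s : ι → G) (R : ℕ) : (Ball s R).Finite := by
  have h : (Ball s R) = (value s) '' {l : List (ι × Bool) | l.length ≤ R} := by
    ext g
    constructor
    · rintro ⟨l, hl, rfl⟩
      exact ⟨l, hl, rfl⟩
    · rintro ⟨l, hl, rfl⟩
      exact ⟨l, hl, rfl⟩
  rw [h]
  exact (List.finite_length_le _ _).image _

theorem BallIso.words {s : ι → G} {t : ι → H} {R : ℕ} (h : BallIso s t R)
    (l : List (ι × Bool)) (hl : l.length ≤ R) : value s l = 1 ↔ value t l = 1 := by
  obtain ⟨f, h1, h2⟩ := h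
  have h0 : (1 : G) ∈ Ball s R := ⟨[], Nat.zero_le _, rfl⟩
  have key : ∀ (l : List (ι × Bool)) (hl : l.length ≤ R),
      (f ⟨value s l, ⟨l, hl, rfl⟩⟩ : H) = value t l := by
    intro l
    induction l using List.reverseRecOn with
    | nil =>
      intro hl
      exact h1 _ rfl
    | append_singleton l x ih =>
      intro hl
      have hl' : l.length ≤ R := by
        rw [List.length_append] at hl
        omega
      have ih' := ih hl'
      obtain ⟨i, b⟩ := x
      cases b with
      | true =>
        have h3 := (h2 i ⟨value s l, ⟨l, hl', rfl⟩⟩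
          ⟨value s (l ++ [(i, true)]), ⟨_, hl, rfl⟩⟩).1 (by
            show value s (l ++ [(i, true)]) = value s l * s i
            rw [value_append, value_single]; rfl)
        rw [h3, ih', value_append, value_single]
        rfl
      | false =>
        have h3 := (h2 i ⟨value s (l ++ [(i, false)]), ⟨_, hl, rfl⟩⟩
          ⟨value s l, ⟨l, hl', rfl⟩⟩).1 (by
            show value s l = value s (l ++ [(i, false)]) * s i
            rw [value_append, value_single]
            show value s l = value s l * (s i)⁻¹ * s i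
            group)
        rw [ih'] at h3
        have h4 : value t (l ++ [(i, false)]) = value t l * (t i)⁻¹ := by
          rw [value_append, value_single]; rfl
        rw [h4, h3]
        group
  constructor
  · intro h3
    rw [← key l hl]
    exact h1 _ h3
  · intro h3
    have h4 := key l hl
    rw [h3] at h4
    have h5 : (f ⟨1, h0⟩ : H) = 1 := h1 _ rfl
    have h6 : f ⟨value s l, ⟨l, hl, rfl⟩⟩ = f ⟨1, h0⟩ := Subtype.ext (h4.trans h5.symm)
    exact congrArg Subtype.val (f.injective h6)

end words

/-- the word version of the relation -/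
def PrecW (G H : Type) [Group G] [Group H] : Prop :=
  ∃ (T : Type) (_ : Finite T) (t : FreeGroup T →* H), Surjective t ∧
    ∀ W : Finset (FreeGroup T), ∃ s : FreeGroup T →* G, Surjective s ∧
      ∀ w ∈ W, s w = 1 ↔ t w = 1

theorem lift_surj {ι G : Type} [Group G] (s : ι → G) (h : closure (Set.range s) = ⊤) :
    Surjective (FreeGroup.lift s) := by
  rw [← MonoidHom.range_eq_top, FreeGroup.range_lift_eq_closure]
  exact h

theorem Prec.word {G H : Type} [Group G] [Group H] (h : Prec G H) : PrecW G H := by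
  classical
  obtain ⟨T, hT, hTg, S, e, hS, hR⟩ := h
  have : Finite T := hT
  refine ⟨T, this, FreeGroup.lift (fun t : T => (t : H)), lift_surj _ (by
    rw [Subtype.range_coe]; exact hTg), ?_⟩
  intro W
  obtain ⟨N, hN⟩ := hR (W.sup fun w => w.toWord.length)
  have hB := hN N le_rfl
  refine ⟨FreeGroup.lift (fun t : T => ((e N).symm t : G)), lift_surj _ ?_, ?_⟩
  · have : Set.range (fun t : T => ((e N).symm t : G)) = S N := by
      ext g
      constructor
      · rintro ⟨t, rfl⟩
        exact ((e N).symm t).2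
      · intro hg
        exact ⟨e N ⟨g, hg⟩, by simp⟩
    rw [this]
    exact (hS N).2
  · intro w hw
    rw [lift_eq_value, lift_eq_value]
    exact hB.words _ (Finset.le_sup (f := fun w : FreeGroup T => w.toWord.length) hw)

theorem Epi.prec {G H : Type} [Group G] [Group H] [hH : Group.FG H] (h : Epi G H) : Prec G H := by
  classical
  obtain ⟨T, hT, hTf⟩ := Group.fg_iff.mp hH
  have hTfin : Finite T := hTf
  let t : T → H := fun x => (x : H)
  have hf : ∀ n : ℕ, ∃ f : H →* G, Surjective f ∧ ∀ x ∈ Ball t (2 * n + 3), f x = 1 → x = 1 := by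
    intro n
    obtain ⟨f, hf, hfS⟩ := h ((ball_finite t (2 * n + 3)).toFinset.erase 1) (by simp)
    refine ⟨f, hf, fun x hx hx1 => ?_⟩
    by_contra hc
    exact hfS x (Finset.mem_erase.2 ⟨hc, (Set.Finite.mem_toFinset _).2 hx⟩) hx1
  choose f hf1 hf2 using hf
  have hinj : ∀ n, ∀ x ∈ Ball t (n + 1), ∀ y ∈ Ball t (n + 1), f n x = f n y → x = y := by
    intro n x hx y hy hxy
    have h1 : x⁻¹ * y ∈ Ball t (2 * n + 3) :=
      ball_mono t (by omega) (ball_mul t (ball_inv t hx) hy)
    have h2 := hf2 n _ h1 (by rw [map_mul, map_inv, hxy, inv_mul_cancel])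
    exact inv_mul_eq_one.1 h2
  have hTinj : ∀ n, Set.InjOn (f n) T := by
    intro n x hx y hy hxy
    exact hinj n x (ball_mono t (by omega) (ball_gen t ⟨x, hx⟩)) y
      (ball_mono t (by omega) (ball_gen t ⟨y, hy⟩)) hxy
  refine ⟨T, hTf, hT, fun n => f n '' T, fun n => (Equiv.Set.imageOfInjOn (f n) T (hTinj n)).symm,
    fun n => ⟨hTf.image _, ?_⟩, ?_⟩
  · rw [← MonoidHom.map_closure, hT, ← MonoidHom.range_eq_map, MonoidHom.range_eq_top]
    exact hf1 n
  · intro R
    refine ⟨R, fun n hn => ?_⟩
    show BallIso (fun x : T => f n (t x)) t R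
    have hmem : ∀ x : Ball t R, f n x ∈ Ball (fun x : T => f n (t x)) R := by
      rintro ⟨_, l, hl, rfl⟩
      exact ⟨l, hl, value_map (f n) t l⟩
    let g : Ball t R → Ball (fun x : T => f n (t x)) R := fun x => ⟨f n x, hmem x⟩
    have hg : Bijective g := by
      constructor
      · intro x y hxy
        apply Subtype.ext
        exact hinj n x (ball_mono t (by omega) x.2) y (ball_mono t (by omega) y.2)
          (congrArg Subtype.val hxy)
      · rintro ⟨_, l, hl, rfl⟩
        exact ⟨⟨value t l, l, hl, rfl⟩, Subtype.ext (value_map (f n) t l).symm⟩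
    let E := Equiv.ofBijective g hg
    refine ⟨E.symm, ?_, ?_⟩
    · intro x hx
      obtain ⟨y, rfl⟩ := E.surjective x
      rw [Equiv.symm_apply_apply]
      apply hinj n y (ball_mono t (by omega) y.2) 1 ⟨[], Nat.zero_le _, rfl⟩
      rw [map_one]
      exact hx
    · intro i x y
      obtain ⟨x, rfl⟩ := E.surjective x
      obtain ⟨y, rfl⟩ := E.surjective y
      rw [Equiv.symm_apply_apply, Equiv.symm_apply_apply]
      show f n y = f n x * f n (t i) ↔ _
      constructor
      · intro h1
        rw [← map_mul] at h1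
        exact hinj n y (ball_mono t (by omega) y.2) _
          (ball_mono t (by omega) (ball_mul t x.2 (ball_gen t i))) h1
      · intro h1
        rw [h1, map_mul]

theorem PrecW.epi {G H : Type} [Group G] [Group H] (h : PrecW G H)
    (hH : Group.IsFinitelyPresented H) : Epi G H := by
  classical
  obtain ⟨n, φ, hφ, R, hR, hRk⟩ := hH.out
  obtain ⟨T, hT, t, ht, hW⟩ := h
  have : Fintype T := Fintype.ofFinite T
  intro S hS
  choose u hu using fun i : Fin n => ht (φ (FreeGroup.of i))
  let α : FreeGroup (Fin n) →* FreeGroup T := FreeGroup.lift u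
  have hα : t.comp α = φ := by
    apply FreeGroup.ext_hom
    intro i
    simp [α, hu]
  choose β hβ using fun i : T => hφ (t (FreeGroup.of i))
  choose r hr using fun x : H => ht x
  obtain ⟨s, hs, hsW⟩ := hW (hR.toFinset.image α ∪
    Finset.univ.image (fun i : T => (FreeGroup.of i)⁻¹ * α (β i)) ∪ S.image r)
  have hker : φ.ker ≤ (s.comp α).ker := by
    rw [← hRk]
    apply normalClosure_le_normal
    intro x hx
    show s (α x) = 1
    rw [hsW (α x) (Finset.mem_union_left _ (Finset.mem_union_left _
      (Finset.mem_image_of_mem _ (hR.mem_toFinset.2 hx))))]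
    have h1 := DFunLike.congr_fun hα x
    have h2 : x ∈ φ.ker := by rw [← hRk]; exact subset_normalClosure hx
    rw [MonoidHom.comp_apply] at h1
    rw [h1]
    exact h2
  let f : H →* G := (QuotientGroup.lift φ.ker (s.comp α) hker).comp
    (QuotientGroup.quotientKerEquivOfSurjective φ hφ).symm.toMonoidHom
  have hf : ∀ x, f (φ x) = s (α x) := by
    intro x
    show QuotientGroup.lift φ.ker (s.comp α) hker
      ((QuotientGroup.quotientKerEquivOfSurjective φ hφ).symm (φ x)) = s (α x)
    have : (QuotientGroup.quotientKerEquivOfSurjective φ hφ).symm (φ x) =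
        ((x : FreeGroup (Fin n)) : FreeGroup (Fin n) ⧸ φ.ker) := by
      rw [MulEquiv.symm_apply_eq]
      rfl
    rw [this]
    rfl
  have hft : f.comp t = s := by
    apply FreeGroup.ext_hom
    intro i
    rw [MonoidHom.comp_apply, ← hβ i, hf]
    have h1 := (hsW ((FreeGroup.of i)⁻¹ * α (β i)) (Finset.mem_union_left _
      (Finset.mem_union_right _ (Finset.mem_image_of_mem _ (Finset.mem_univ i))))).2 (by
        have h2 := DFunLike.congr_fun hα (β i)
        rw [MonoidHom.comp_apply] at h2
        rw [map_mul, map_inv, h2, hβ i, inv_mul_cancel])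
    rw [map_mul, map_inv, inv_mul_eq_one] at h1
    exact h1.symm
  refine ⟨f, ?_, ?_⟩
  · intro g
    obtain ⟨w, rfl⟩ := hs g
    exact ⟨t w, DFunLike.congr_fun hft w⟩
  · intro x hx h1
    have h2 := hsW (r x) (Finset.mem_union_right _ (Finset.mem_image_of_mem _ hx))
    rw [hr x, ← hft, MonoidHom.comp_apply, hr x] at h2
    have := h2.1 h1
    rw [this] at hx
    exact hS hx

theorem vn_of_surj {G H : Type} [Group G] [Group H] (f : H →* G) (hf : Surjective f)
    (h : Group.IsVirtuallyNilpotent H) : Group.IsVirtuallyNilpotent G := by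
  obtain ⟨N, hN, hi⟩ := h
  refine ⟨N.map f, ?_, ?_⟩
  · have := hN
    exact Group.nilpotent_of_surjective (f.subgroupMap N) (f.subgroupMap_surjective N)
  · constructor
    intro h0
    have := Subgroup.index_map_dvd N hf
    rw [h0] at this
    exact hi.index_ne_zero (Nat.eq_zero_of_zero_dvd this)

theorem vn_up {G H : Type} [Group G] [Group H] (h : PrecW G H)
    (hG : Group.IsVirtuallyNilpotent G) : Group.IsVirtuallyNilpotent H := by
  classical
  obtain ⟨H0, hn, hi⟩ := hG
  have hA : Group.IsNilpotent H0.normalCore := by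
    have h1 : Group.IsNilpotent (H0.normalCore.subgroupOf H0) := inferInstance
    exact (Group.isNilpotent_congr
      (Subgroup.subgroupOfEquivOfLe (Subgroup.normalCore_le H0))).1 h1
  have hfi : (H0.normalCore).FiniteIndex := inferInstance
  set A := H0.normalCore with hAdef
  obtain ⟨T, hT, t, ht, hW⟩ := h
  let q : G →* G ⧸ A := QuotientGroup.mk' A
  have hfin : Finite (FreeGroup T →* G ⧸ A) := finite_hom
  obtain ⟨ρ, hρ⟩ : ∃ ρ : FreeGroup T →* G ⧸ A, ∀ W : Finset (FreeGroup T),
      ∃ s : FreeGroup T →* G, Surjective s ∧ q.comp s = ρ ∧ ∀ w ∈ W, s w = 1 ↔ t w = 1 := by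
    by_contra hc
    push Not at hc
    choose W hWρ using hc
    have : Fintype (FreeGroup T →* G ⧸ A) := Fintype.ofFinite _
    obtain ⟨s, hs, hsW⟩ := hW (Finset.univ.biUnion W)
    obtain ⟨w, hw, hw2⟩ := hWρ (q.comp s) s hs rfl
    have h1 := hsW w (Finset.mem_biUnion.2 ⟨_, Finset.mem_univ _, hw⟩)
    rcases hw2 with h2 | h2
    · exact h2.2 (h1.1 h2.1)
    · exact h2.1 (h1.2 h2.2)
  obtain ⟨c, hc⟩ := (isNilpotent_iff_lowerCentralSeries A).1 hA
  refine ⟨ρ.ker.map t, ?_, ?_⟩
  · rw [isNilpotent_iff_lowerCentralSeries]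
    refine ⟨c, ?_⟩
    rw [← map_lowerCentralSeries, eq_bot_iff]
    rintro _ ⟨w, hw, rfl⟩
    rw [mem_bot]
    obtain ⟨s, hs, hsρ, hsw⟩ := hρ {w}
    rw [← hsw w (Finset.mem_singleton_self _)]
    have h1 : ρ.ker.map s = A := by
      ext y
      constructor
      · rintro ⟨z, hz, rfl⟩
        have h2 : q (s z) = 1 := by
          rw [← MonoidHom.comp_apply, hsρ]
          exact hz
        exact (QuotientGroup.eq_one_iff _).1 h2
      · intro hy
        obtain ⟨z, rfl⟩ := hs y
        refine ⟨z, ?_, rfl⟩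
        show z ∈ ρ.ker
        rw [MonoidHom.mem_ker, ← hsρ]
        exact (QuotientGroup.eq_one_iff _).2 hy
    have h2 : s w ∈ (ρ.ker.lowerCentralSeries c).map s := mem_map_of_mem s hw
    rw [map_lowerCentralSeries, h1, hc, mem_bot] at h2
    exact h2
  · have hf : ρ.ker.FiniteIndex := by
      have : Finite ρ.range := inferInstance
      infer_instance
    constructor
    intro h0
    have := Subgroup.index_map_dvd ρ.ker ht
    rw [h0] at this
    exact hf.index_ne_zero (Nat.eq_zero_of_zero_dvd this)

theorem epi_of_prec {G H : Type} [Group G] [Group H] [hH : Group.FG H] (h : Prec G H)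
    (hv : Group.IsVirtuallyNilpotent H) : Epi G H :=
  h.word.epi (W386.fp_of_vn hH hv)

theorem vn_down {G H : Type} [Group G] [Group H] [hH : Group.FG H] (h : Prec G H)
    (hv : Group.IsVirtuallyNilpotent H) : Group.IsVirtuallyNilpotent G := by
  obtain ⟨f, hf, -⟩ := epi_of_prec h hv ∅ (by simp)
  exact vn_of_surj f hf hv

/-! ### Directedness -/

theorem vn_component {V G : FGGroup} (h : Relation.EqvGen Le V G) :
    Group.IsVirtuallyNilpotent V.carrier ↔ Group.IsVirtuallyNilpotent G.carrier := by
  induction h with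
  | rel A B h => exact ⟨vn_up h.word, vn_down h⟩
  | refl A => exact Iff.rfl
  | symm A B _ ih => exact ih.symm
  | trans A B C _ _ ih1 ih2 => exact ih1.trans ih2

theorem confl' {K G₁ G₂ : FGGroup} (hK : Group.IsVirtuallyNilpotent K.carrier)
    (h1 : Epi K.carrier G₁.carrier) (h2 : Epi K.carrier G₂.carrier) :
    ∃ U : FGGroup, Epi G₁.carrier U.carrier ∧ Epi G₂.carrier U.carrier := by
  obtain ⟨U, _, hU, g1, g2⟩ := confl K.carrier G₁.carrier G₂.carrier hK h1 h2
  exact ⟨⟨U⟩, g1, g2⟩

theorem vn_of_epi {G U : FGGroup} (h : Epi G.carrier U.carrier)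
    (hG : Group.IsVirtuallyNilpotent G.carrier) : Group.IsVirtuallyNilpotent U.carrier :=
  vn_up h.prec.word hG

theorem pair {A B : FGGroup} (h : Relation.EqvGen Le A B)
    (hA : Group.IsVirtuallyNilpotent A.carrier) :
    ∃ U : FGGroup, Epi A.carrier U.carrier ∧ Epi B.carrier U.carrier := by
  induction h with
  | rel A B h => exact ⟨B, epi_of_prec h (vn_up h.word hA), Epi.refl _⟩
  | refl A => exact ⟨A, Epi.refl _, Epi.refl _⟩
  | symm A B h ih =>
    obtain ⟨U, h1, h2⟩ := ih ((vn_component h).2 hA)
    exact ⟨U, h2, h1⟩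
  | trans A B C hAB hBC ih1 ih2 =>
    obtain ⟨U, h1, h2⟩ := ih1 hA
    have hB := (vn_component hAB).1 hA
    obtain ⟨V, h3, h4⟩ := ih2 hB
    obtain ⟨W, h5, h6⟩ := confl' hB h2 h3
    exact ⟨W, h1.trans h5, h4.trans h6⟩

theorem directed (V : FGGroup) (hV : Group.IsVirtuallyNilpotent V.carrier)
    (F : Set FGGroup) (hF : F.Finite) (hs : ∀ G ∈ F, Relation.EqvGen Le V G) :
    ∃ U : FGGroup, Epi V.carrier U.carrier ∧ ∀ G ∈ F, Epi G.carrier U.carrier := by
  revert hs
  induction F, hF using Set.Finite.induction_on with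
  | empty => exact fun _ => ⟨V, Epi.refl _, fun G hG => absurd hG (Set.notMem_empty G)⟩
  | @insert A F _ _ ih =>
    intro hs
    obtain ⟨U, h1, h2⟩ := ih (fun G hG => hs G (Set.mem_insert_of_mem _ hG))
    obtain ⟨W, h3, h4⟩ := pair (hs A (Set.mem_insert A F)) hV
    obtain ⟨Z, h5, h6⟩ := confl' hV h1 h3
    refine ⟨Z, h1.trans h5, fun G hG => ?_⟩
    rcases Set.mem_insert_iff.1 hG with rfl | hG
    · exact h4.trans h6
    · exact (h2 G hG).trans h5

/-! ### Isomorphism classes -/

theorem le_of_iso {A B : FGGroup} (h : isoClass A = isoClass B) : Le A B := by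
  obtain ⟨e⟩ : Nonempty (A.carrier ≃* B.carrier) := Quotient.exact (s := isoSetoid) h
  apply Epi.prec
  intro S hS
  refine ⟨e.symm.toMonoidHom, e.symm.surjective, fun x hx h1 => hS ?_⟩
  have : x = 1 := e.symm.injective (by rw [map_one]; exact h1)
  rwa [this] at hx

theorem eqv_of_reach {a b : IsoClass} (h : marked.Reachable a b) :
    ∀ A B : FGGroup, isoClass A = a → isoClass B = b → Relation.EqvGen Le A B := by
  obtain ⟨w⟩ := h
  induction w with
  | nil => exact fun A B hA hB => Relation.EqvGen.rel _ _ (le_of_iso (hA.trans hB.symm))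
  | @cons a c b hadj _ ih =>
    intro A B hA hB
    rw [marked, SimpleGraph.fromRel_adj] at hadj
    rcases hadj.2 with ⟨G, H, hG, hH, hGH⟩ | ⟨G, H, hG, hH, hGH⟩
    · exact ((Relation.EqvGen.rel _ _ (le_of_iso (hA.trans hG.symm))).trans _ _ _
        (Relation.EqvGen.rel _ _ hGH)).trans _ _ _ (ih H B hH hB)
    · exact ((Relation.EqvGen.rel _ _ (le_of_iso (hA.trans hH.symm))).trans _ _ _
        ((Relation.EqvGen.rel _ _ hGH).symm _ _)).trans _ _ _ (ih G B hG hB)

theorem reach_of_le {A B : FGGroup} (h : Le A B) : marked.Reachable (isoClass A) (isoClass B) := by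
  by_cases hc : isoClass A = isoClass B
  · rw [hc]
  · apply SimpleGraph.Adj.reachable
    rw [marked, SimpleGraph.fromRel_adj]
    exact ⟨hc, Or.inl ⟨A, B, rfl, rfl, h⟩⟩

theorem main (C : marked.ConnectedComponent) (V : FGGroup)
    (hV : Group.IsVirtuallyNilpotent V.carrier) (hC : isoClass V ∈ C.supp) :
    DirectedSet C.supp := by
  intro F hF hFC
  choose r hr using fun a : IsoClass => Quotient.exists_rep a
  obtain ⟨U, h1, h2⟩ := directed V hV (r '' F) (hF.image r) (by
    rintro _ ⟨a, ha, rfl⟩
    have h3 : a ∈ C.supp := hFC ha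
    rw [SimpleGraph.ConnectedComponent.mem_supp_iff] at hC h3
    exact eqv_of_reach (SimpleGraph.ConnectedComponent.exact (hC.trans h3.symm)) V (r a) rfl (hr a))
  refine ⟨isoClass U, ?_, ?_⟩
  · rw [SimpleGraph.ConnectedComponent.mem_supp_iff] at hC ⊢
    rw [← hC]
    exact SimpleGraph.ConnectedComponent.sound (reach_of_le h1.prec).symm
  · intro a ha
    exact ⟨r a, U, hr a, rfl, (h2 _ (Set.mem_image_of_mem _ ha)).prec⟩

end Pool.Agent.K1H9.DV
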