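import Pool.Agent.K1H9.DV.Core

set_option autoImplicit false

/-!
# A generating tuple over the finite quotient, not killing finitely many given words
-/

namespace Pool.Agent.K1H9.DV

open Function Subgroup

section step

variable {G Q X : Type} [Group G] [Group Q]

theorem cong_of_gen {D : Subgroup G} (hD : D.Normal) (φ χ : FreeGroup X →* G)
    (h : ∀ x, (φ (FreeGroup.of x))⁻¹ * χ (FreeGroup.of x) ∈ D) (w : FreeGroup X) :
    (φ w)⁻¹ * χ w ∈ D := by
  have h1 : (QuotientGroup.mk' D).comp φ = (QuotientGroup.mk' D).comp χ := by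
    apply FreeGroup.ext_hom
    intro x
    exact QuotientGroup.eq.2 (h x)
  exact QuotientGroup.eq.1 (DFunLike.congr_fun h1 w)

theorem over_of_gen (π : G →* Q) (φ χ : FreeGroup X →* G)
    (h : ∀ x, (φ (FreeGroup.of x))⁻¹ * χ (FreeGroup.of x) ∈ π.ker) : π.comp χ = π.comp φ := by
  apply FreeGroup.ext_hom
  intro x
  have := h x
  rw [MonoidHom.mem_ker, map_mul, map_inv, inv_mul_eq_one] at this
  exact this.symm

/-- gluing two homomorphisms over `Q` along two normal subgroups with product `ker π` -/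
theorem combine (π : G →* Q) {D E : Subgroup G} (hD : D.Normal) (hE : E.Normal)
    (hDM : D ≤ π.ker)
    (hDE : ∀ x ∈ π.ker, ∃ d ∈ D, ∃ e ∈ E, x = d * e) (φ ψ : FreeGroup X →* G)
    (h : π.comp φ = π.comp ψ) : ∃ χ : FreeGroup X →* G, π.comp χ = π.comp φ ∧
      (∀ w, (φ w)⁻¹ * χ w ∈ D) ∧ (∀ w, (ψ w)⁻¹ * χ w ∈ E) := by
  have h1 : ∀ x : X, ∃ c : G, (φ (FreeGroup.of x))⁻¹ * c ∈ D ∧ (ψ (FreeGroup.of x))⁻¹ * c ∈ E := by
    intro x
    have h2 : (φ (FreeGroup.of x))⁻¹ * ψ (FreeGroup.of x) ∈ π.ker := by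
      rw [MonoidHom.mem_ker, map_mul, map_inv, inv_mul_eq_one]
      exact DFunLike.congr_fun h (FreeGroup.of x)
    obtain ⟨d, hd, e, he, hx⟩ := hDE _ h2
    refine ⟨φ (FreeGroup.of x) * d, ?_, ?_⟩
    · rw [inv_mul_cancel_left]; exact hd
    · have : (ψ (FreeGroup.of x))⁻¹ * (φ (FreeGroup.of x) * d) = e⁻¹ := by
        have h3 : ψ (FreeGroup.of x) = φ (FreeGroup.of x) * (d * e) := by
          rw [← hx]; group
        rw [h3]; group
      rw [this]
      exact E.inv_mem he
  choose c hc1 hc2 using h1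
  refine ⟨FreeGroup.lift c, ?_, ?_, ?_⟩
  · apply over_of_gen
    intro x
    rw [FreeGroup.lift_apply_of]
    exact hDM (hc1 x)
  · apply cong_of_gen hD
    intro x
    rw [FreeGroup.lift_apply_of]
    exact hc1 x
  · apply cong_of_gen hE
    intro x
    rw [FreeGroup.lift_apply_of]
    exact hc2 x

theorem partA (π : G →* Q) (hRP : RP π.ker) (hf : π.ker.FiniteIndex) (θ : FreeGroup X →* Q)
    (hne : ∃ φ : FreeGroup X →* G, π.comp φ = θ) (W : Finset (FreeGroup X))
    (hW : ∀ w ∈ W, ∃ φ : FreeGroup X →* G, π.comp φ = θ ∧ φ w ≠ 1) :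
    ∃ (φ : FreeGroup X →* G) (D : Subgroup G) (n : ℕ), π.comp φ = θ ∧ EX n π.ker D ∧ 0 < n ∧
      ∀ w ∈ W, φ w ∉ D := by
  classical
  induction W using Finset.induction_on with
  | empty =>
    obtain ⟨φ, hφ⟩ := hne
    exact ⟨φ, π.ker, 1, hφ, ⟨inferInstance, le_rfl, fun x hx => by simpa using hx⟩, one_pos,
      by simp⟩
  | insert w W hw ih =>
    obtain ⟨φ, D, n, h1, h2, h3, h4⟩ := ih (fun v hv => hW v (Finset.mem_insert_of_mem hv))
    obtain ⟨ψ, g1, g2⟩ := hW w (Finset.mem_insert_self _ _)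
    obtain ⟨p, hpn, hp⟩ := Nat.exists_infinite_primes (n + 1)
    obtain ⟨k, E, g3, -, g4⟩ := hRP.all inferInstance hf hp (ψ w) g2
    have hc : n.Coprime (p ^ k) := by
      apply Nat.Coprime.pow_right
      apply Nat.Coprime.symm
      rw [Nat.Prime.coprime_iff_not_dvd hp]
      intro hd
      have := Nat.le_of_dvd h3 hd
      omega
    obtain ⟨χ, f1, f2, f3⟩ := combine π h2.nor g3.nor h2.le (h2.crt g3 hc) φ ψ (h1.trans g1.symm)
    refine ⟨χ, D ⊓ E, n * p ^ k, f1.trans h1, h2.inf g3, Nat.mul_pos h3 (pow_pos hp.pos k), ?_⟩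
    intro v hv hvD
    rcases Finset.mem_insert.1 hv with rfl | hv
    · apply g4
      have := E.mul_mem hvD.2 (E.inv_mem (f3 v))
      have h5 : χ v * ((ψ v)⁻¹ * χ v)⁻¹ = ψ v := by group
      rwa [h5] at this
    · apply h4 v hv
      have := D.mul_mem hvD.1 (D.inv_mem (f2 v))
      have h5 : χ v * ((φ v)⁻¹ * χ v)⁻¹ = φ v := by group
      rwa [h5] at this

end step

section main

variable {G Q X Y : Type} [Group G] [Group Q]

theorem stepD (π : G →* Q) (hRP : RP π.ker) (hf : π.ker.FiniteIndex)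
    (θ : FreeGroup (X ⊕ Y) →* Q)
    (a : FreeGroup X →* G) (ha : Surjective a) (hπa : π.comp a = θ.comp (FreeGroup.map Sum.inl))
    (b : FreeGroup Y →* G) (hb : Surjective b) (hπb : π.comp b = θ.comp (FreeGroup.map Sum.inr))
    (W : Finset (FreeGroup (X ⊕ Y)))
    (hW : ∀ w ∈ W, ∃ φ : FreeGroup (X ⊕ Y) →* G, π.comp φ = θ ∧ φ w ≠ 1) :
    ∃ φ : FreeGroup (X ⊕ Y) →* G, π.comp φ = θ ∧ Surjective φ ∧ ∀ w ∈ W, φ w ≠ 1 := by
  classical
  -- a homomorphism over `Q`
  let ab : FreeGroup (X ⊕ Y) →* G :=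
    FreeGroup.lift (Sum.elim (fun x => a (FreeGroup.of x)) (fun y => b (FreeGroup.of y)))
  have hab : π.comp ab = θ := by
    apply FreeGroup.ext_hom
    rintro (x | y)
    · show π (ab (FreeGroup.of (Sum.inl x))) = θ (FreeGroup.of (Sum.inl x))
      have h1 : ab (FreeGroup.of (Sum.inl x)) = a (FreeGroup.of x) := by
        show FreeGroup.lift _ _ = _
        rw [FreeGroup.lift_apply_of]; rfl
      rw [h1]
      have := DFunLike.congr_fun hπa (FreeGroup.of x)
      simpa using this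
    · show π (ab (FreeGroup.of (Sum.inr y))) = θ (FreeGroup.of (Sum.inr y))
      have h1 : ab (FreeGroup.of (Sum.inr y)) = b (FreeGroup.of y) := by
        show FreeGroup.lift _ _ = _
        rw [FreeGroup.lift_apply_of]; rfl
      rw [h1]
      have := DFunLike.congr_fun hπb (FreeGroup.of y)
      simpa using this
  obtain ⟨φ0, D, n, h1, h2, h3, h4⟩ := partA π hRP hf θ ⟨ab, hab⟩ W hW
  obtain ⟨p, hpn, hp⟩ := Nat.exists_infinite_primes (n + 1)
  have hc : n.Coprime p := by
    apply Nat.Coprime.symm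
    rw [Nat.Prime.coprime_iff_not_dvd hp]
    intro hd
    have := Nat.le_of_dvd h3 hd
    omega
  have hE := D0_ex p π.ker inferInstance
  -- correct the first block modulo the Frattini subgroup
  obtain ⟨φ1, f1, f2, f3⟩ := combine π h2.nor hE.nor h2.le (h2.crt hE hc) φ0 ab
    (h1.trans hab.symm)
  have hφ1 : π.comp φ1 = θ := f1.trans h1
  have hφ1W : ∀ w ∈ W, φ1 w ≠ 1 := by
    intro w hw h5
    apply h4 w hw
    have := f2 w
    rw [h5, mul_one] at this
    exact inv_mem_iff.1 this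
  let a' : FreeGroup X →* G := φ1.comp (FreeGroup.map Sum.inl)
  let L : Subgroup G := a'.range ⊓ π.ker
  have ha' : ∀ u : FreeGroup X, (a u)⁻¹ * a' u ∈ D0 p π.ker := by
    intro u
    have h5 := f3 (FreeGroup.map Sum.inl u)
    have h6 : ab (FreeGroup.map Sum.inl u) = a u := by
      have : ab.comp (FreeGroup.map Sum.inl) = a := by
        apply FreeGroup.ext_hom
        intro x
        simp [ab]
      exact DFunLike.congr_fun this u
    rw [h6] at h5
    exact h5
  have hL0 : ∀ x ∈ π.ker, ∃ l ∈ L, ∃ d ∈ D0 p π.ker, x = l * d := by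
    intro x hx
    obtain ⟨u, rfl⟩ := ha x
    have h5 := ha' u
    have h6 : (a' u)⁻¹ * a u ∈ D0 p π.ker := by
      have := (D0 p π.ker).inv_mem h5
      simpa using this
    refine ⟨a' u, ⟨⟨u, rfl⟩, ?_⟩, _, h6, by group⟩
    have h7 : a' u = a u * ((a u)⁻¹ * a' u) := by group
    rw [h7]
    exact π.ker.mul_mem hx (hE.le h5)
  -- separate the words by a normal subgroup of `p`-power index
  obtain ⟨k, E, e1, e2, e3⟩ := hRP.fin inferInstance hf hp (W.image φ1) (by
    intro h5
    obtain ⟨w, hw, h6⟩ := Finset.mem_image.1 h5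
    exact hφ1W w hw h6)
  have hL := frat hp π.ker E L e1 e2 inf_le_right hL0
  -- correct the second block inside the subgroup generated by the first block
  have hy : ∀ y : Y, ∃ l ∈ L, (b (FreeGroup.of y) * l)⁻¹ * φ1 (FreeGroup.of (Sum.inr y)) ∈ E := by
    intro y
    have h5 : (b (FreeGroup.of y))⁻¹ * φ1 (FreeGroup.of (Sum.inr y)) ∈ π.ker := by
      rw [MonoidHom.mem_ker, map_mul, map_inv, inv_mul_eq_one]
      have h6 := DFunLike.congr_fun hπb (FreeGroup.of y)
      have h7 := DFunLike.congr_fun hφ1 (FreeGroup.of (Sum.inr y))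
      simp only [MonoidHom.comp_apply, FreeGroup.map.of] at h6 h7
      rw [h6, h7]
    obtain ⟨l, hl, e, he, h6⟩ := hL _ h5
    refine ⟨l, hl, ?_⟩
    have h7 : (b (FreeGroup.of y) * l)⁻¹ * φ1 (FreeGroup.of (Sum.inr y)) = e := by
      rw [mul_inv_rev, mul_assoc, h6]; group
    rw [h7]
    exact he
  choose l hl1 hl2 using hy
  let χ : FreeGroup (X ⊕ Y) →* G :=
    FreeGroup.lift (Sum.elim (fun x => a' (FreeGroup.of x)) (fun y => b (FreeGroup.of y) * l y))
  have hχx : ∀ x, χ (FreeGroup.of (Sum.inl x)) = a' (FreeGroup.of x) := by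
    intro x
    show FreeGroup.lift _ _ = _
    rw [FreeGroup.lift_apply_of]; rfl
  have hχy : ∀ y, χ (FreeGroup.of (Sum.inr y)) = b (FreeGroup.of y) * l y := by
    intro y
    show FreeGroup.lift _ _ = _
    rw [FreeGroup.lift_apply_of]; rfl
  have hφ1x : ∀ x, φ1 (FreeGroup.of (Sum.inl x)) = a' (FreeGroup.of x) := by
    intro x
    show _ = φ1 (FreeGroup.map Sum.inl (FreeGroup.of x))
    rw [FreeGroup.map.of]
  have hcong : ∀ w, (χ w)⁻¹ * φ1 w ∈ E := by
    apply cong_of_gen e1.nor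
    rintro (x | y)
    · rw [hχx, hφ1x, inv_mul_cancel]
      exact E.one_mem
    · rw [hχy]
      exact hl2 y
  refine ⟨χ, ?_, ?_, ?_⟩
  · rw [← hφ1]
    symm
    apply over_of_gen
    intro x
    exact e1.le (hcong _)
  · have hr1 : ∀ u, a' u ∈ χ.range := by
      have : χ.comp (FreeGroup.map Sum.inl) = a' := by
        apply FreeGroup.ext_hom
        intro x
        show χ (FreeGroup.map Sum.inl (FreeGroup.of x)) = _
        rw [FreeGroup.map.of, hχx]
      intro u
      exact ⟨FreeGroup.map Sum.inl u, DFunLike.congr_fun this u⟩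
    have hr2 : ∀ y, b (FreeGroup.of y) ∈ χ.range := by
      intro y
      obtain ⟨u, hu⟩ := (hl1 y).1
      have h5 : l y ∈ χ.range := by rw [← hu]; exact hr1 u
      have h6 : b (FreeGroup.of y) * l y ∈ χ.range := ⟨_, hχy y⟩
      have := χ.range.mul_mem h6 (χ.range.inv_mem h5)
      simpa using this
    have hr3 : ∀ u, b u ∈ χ.range := by
      intro u
      induction u using FreeGroup.induction_on with
      | C1 => rw [map_one]; exact one_mem _
      | of y => exact hr2 y
      | inv_of y _ => rw [map_inv]; exact inv_mem (hr2 y)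
      | mul u v hu hv => rw [map_mul]; exact mul_mem hu hv
    intro g
    obtain ⟨u, rfl⟩ := hb g
    exact hr3 u
  · intro w hw h5
    apply e3 (φ1 w) (Finset.mem_image_of_mem _ hw)
    have := hcong w
    rw [h5, inv_one, one_mul] at this
    exact this

end main

end Pool.Agent.K1H9.DV
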